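import Mathlib

/-!
Britton's lemma for the subgroup generated by a subgroup of the base and the stable letter.
-/

namespace Helper67.CO

open Monoid Function HNNExtension

variable {G : Type} [Group G] {A B : Subgroup G} {C : Subgroup G}

/-- words in the free product of `C` and the infinite cyclic group -/
def cw (c : C) (L : List (ℤˣ × C)) : Coprod C (Multiplicative ℤ) :=
  Coprod.inl c *
    (L.map fun p => Coprod.inr (Multiplicative.ofAdd (p.1 : ℤ)) * Coprod.inl p.2).prod

/-- the natural map -/
def psi (φ : A ≃* B) (C : Subgroup G) : Coprod C (Multiplicative ℤ) →* HNNExtension G A B φ :=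
  Coprod.lift (of.comp C.subtype) (zpowersHom _ t)

theorem psi_cw (φ : A ≃* B) (c : C) (L : List (ℤˣ × C)) :
    psi φ C (cw c L) = of (c : G) * (L.map fun p => t ^ (p.1 : ℤ) * of (p.2 : G)).prod := by
  unfold cw psi
  rw [map_mul, map_list_prod, List.map_map, Coprod.lift_apply_inl]
  refine congrArg₂ (· * ·) rfl (congrArg List.prod ?_)
  apply List.map_congr_left
  intro p _
  simp [zpowersHom_apply]

/-- the words which are reduced -/
def Red (A B : Subgroup G) (L : List (ℤˣ × C)) : Prop :=
  L.IsChain fun a b => (a.2 : G) ∈ toSubgroup A B a.1 → a.1 = b.1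

theorem exists_cw_unit (hA : ∀ c ∈ C, c ∈ A → c = 1) (hB : ∀ c ∈ C, c ∈ B → c = 1) (u : ℤˣ)
    (x : Coprod C (Multiplicative ℤ)) (h : ∃ c L, Red (C := C) A B L ∧ x = cw c L) :
    ∃ c L, Red (C := C) A B L ∧ Coprod.inr (Multiplicative.ofAdd (u : ℤ)) * x = cw c L := by
  obtain ⟨c, L, hL, rfl⟩ := h
  by_cases hc : ∃ v d L', L = (v, d) :: L' ∧ (c : G) ∈ toSubgroup A B u ∧ u ≠ v
  · obtain ⟨v, d, L', rfl, hcu, huv⟩ := hc
    have hc1 : c = 1 := by
      apply Subtype.ext
      rcases Int.units_eq_one_or u with rfl | rfl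
      · exact hA _ c.2 hcu
      · exact hB _ c.2 hcu
    have hv : (u : ℤ) + (v : ℤ) = 0 := by
      rcases Int.units_eq_one_or u with rfl | rfl <;> rcases Int.units_eq_one_or v with rfl | rfl <;>
        simp_all
    refine ⟨d, L', (List.isChain_cons.1 hL).2, ?_⟩
    subst hc1
    unfold cw
    rw [List.map_cons, List.prod_cons]
    simp only [map_one, one_mul]
    rw [← mul_assoc, ← mul_assoc, ← map_mul, ← ofAdd_add, hv]
    simp
  · refine ⟨1, (u, c) :: L, ?_, ?_⟩
    · cases L with
      | nil => exact List.isChain_singleton _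
      | cons p L' =>
        obtain ⟨v, d⟩ := p
        refine List.isChain_cons_cons.2 ⟨?_, hL⟩
        intro h1
        by_contra h2
        exact hc ⟨v, d, L', rfl, h1, h2⟩
    · unfold cw
      rw [List.map_cons, List.prod_cons]
      simp only [map_one, one_mul, mul_assoc]

theorem exists_cw (hA : ∀ c ∈ C, c ∈ A → c = 1) (hB : ∀ c ∈ C, c ∈ B → c = 1)
    (x : Coprod C (Multiplicative ℤ)) : ∃ c L, Red (C := C) A B L ∧ x = cw c L := by
  have hz : ∀ (n : ℤ) (x : Coprod C (Multiplicative ℤ)),
      (∃ c L, Red (C := C) A B L ∧ x = cw c L) →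
      ∃ c L, Red (C := C) A B L ∧ Coprod.inr (Multiplicative.ofAdd n) * x = cw c L := by
    intro n
    induction n using Int.induction_on with
    | zero => intro x hx; simpa using hx
    | succ n ih =>
      intro x hx
      have := exists_cw_unit hA hB 1 _ (ih x hx)
      rw [← mul_assoc, ← map_mul, ← ofAdd_add] at this
      rwa [add_comm]
    | pred n ih =>
      intro x hx
      have := exists_cw_unit hA hB (-1) _ (ih x hx)
      rw [← mul_assoc, ← map_mul, ← ofAdd_add] at this
      have e : (((-1 : ℤˣ) : ℤ) + -(n : ℤ)) = -(n : ℤ) - 1 := by push_cast; ring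
      rwa [e] at this
  induction x using Coprod.induction_on' with
  | one => exact ⟨1, [], List.isChain_nil, by simp [cw]⟩
  | inl_mul m x ih =>
    obtain ⟨c, L, hL, rfl⟩ := ih
    refine ⟨m * c, L, hL, ?_⟩
    unfold cw
    rw [map_mul, mul_assoc]
  | inr_mul n x ih => exact hz n.toAdd x ih

theorem psi_mem_range (φ : A ≃* B) (hA : ∀ c ∈ C, c ∈ A → c = 1) (hB : ∀ c ∈ C, c ∈ B → c = 1)
    (x : Coprod C (Multiplicative ℤ)) (h : psi φ C x ∈ (of : G →* HNNExtension G A B φ).range) :
    ∃ c : C, x = Coprod.inl c := by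
  obtain ⟨c, L, hL, rfl⟩ := exists_cw hA hB x
  rw [psi_cw] at h
  let w : NormalWord.ReducedWord G A B :=
    { head := c
      toList := L.map fun p => (p.1, (p.2 : G))
      chain := by
        rw [List.isChain_map]
        exact hL }
  have h1 : w.prod φ ∈ (of : G →* HNNExtension G A B φ).range := by
    have : w.prod φ = of (c : G) * (L.map fun p => t ^ (p.1 : ℤ) * of (p.2 : G)).prod := by
      simp [NormalWord.ReducedWord.prod, w, Function.comp_def]
    rw [this]
    exact h
  have h2 := ReducedWord.toList_eq_nil_of_mem_of_range φ w h1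
  have h3 : L = [] := List.map_eq_nil_iff.1 h2
  subst h3
  exact ⟨c, by simp [cw]⟩

theorem psi_injective (φ : A ≃* B) (hA : ∀ c ∈ C, c ∈ A → c = 1) (hB : ∀ c ∈ C, c ∈ B → c = 1) :
    Injective (psi φ C) := by
  rw [injective_iff_map_eq_one]
  intro x hx
  obtain ⟨c, rfl⟩ := psi_mem_range φ hA hB x (by rw [hx]; exact one_mem _)
  have h1 : (of : G →* HNNExtension G A B φ) (c : G) = 1 := by
    rw [← hx]
    simp [psi]
  have h2 : (c : G) = 1 := of_injective (φ := φ) (h1.trans (map_one _).symm)
  have h3 : c = 1 := Subtype.ext h2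
  rw [h3, map_one]

theorem t_mul_notMem (φ : A ≃* B) (hA : ∀ c ∈ C, c ∈ A → c = 1) (hB : ∀ c ∈ C, c ∈ B → c = 1)
    (g : G) (hg : ∀ c ∈ C, g * c ∉ A) (x : Coprod C (Multiplicative ℤ)) :
    (t : HNNExtension G A B φ) * of g * psi φ C x ∉ (of : G →* HNNExtension G A B φ).range := by
  intro h
  obtain ⟨c, L, hL, rfl⟩ := exists_cw hA hB x
  rw [psi_cw] at h
  let w : NormalWord.ReducedWord G A B :=
    { head := 1
      toList := (1, g * c) :: L.map fun p => (p.1, (p.2 : G))
      chain := by
        rw [List.isChain_cons]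
        refine ⟨fun y _ h1 => absurd h1 (hg _ c.2), ?_⟩
        rw [List.isChain_map]
        exact hL }
  have h1 : w.prod φ ∈ (of : G →* HNNExtension G A B φ).range := by
    have : w.prod φ = t * of g * (of (c : G) *
        (L.map fun p => t ^ (p.1 : ℤ) * of (p.2 : G)).prod) := by
      simp [NormalWord.ReducedWord.prod, w, Function.comp_def, mul_assoc]
    rw [this]
    exact h
  have h2 := ReducedWord.toList_eq_nil_of_mem_of_range φ w h1
  simp [w] at h2

end Helper67.CO
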