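import Mathlib

/-!
The closure of the subgroup generated by a fibre and a stable letter.
-/

namespace Helper67.CO

theorem closure_mem {G K : Type} [Group G] [Group K] (f : K →* G) (χ : K →* Multiplicative ℤ)
    (u : G) (t y : K) (hu : u⁻¹ * f t * u = f y) (E : Subgroup G) (hE : E.index ≠ 0)
    (hker : ∀ s, χ s = 1 → f s ∈ E) (huE : u ∈ E) (s : K) (hs : χ s = 1) :
    f t * u⁻¹ * f s * u * (f t)⁻¹ ∈ E := by
  by_cases ht : χ t = 1
  · have h1 := hker t ht
    have h2 := hker s hs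
    exact mul_mem (mul_mem (mul_mem (mul_mem h1 (inv_mem huE)) h2) huE) (inv_mem h1)
  -- the group of values of `χ` on `E`
  let N : AddSubgroup ℤ :=
    { carrier := {m | ∃ k, f k ∈ E ∧ χ k = Multiplicative.ofAdd m}
      zero_mem' := ⟨1, by rw [map_one]; exact one_mem _, by simp⟩
      add_mem' := by
        rintro a b ⟨k, hk, hk'⟩ ⟨l, hl, hl'⟩
        exact ⟨k * l, by rw [map_mul]; exact mul_mem hk hl, by rw [map_mul, hk', hl', ofAdd_add]⟩
      neg_mem' := by
        rintro a ⟨k, hk, hk'⟩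
        exact ⟨k⁻¹, by rw [map_inv]; exact inv_mem hk, by rw [map_inv, hk', ofAdd_neg]⟩ }
  have hN : ∀ k, f k ∈ E ↔ Multiplicative.toAdd (χ k) ∈ N := by
    intro k
    constructor
    · intro h
      exact ⟨k, h, rfl⟩
    · rintro ⟨l, hl, hl'⟩
      have h1 : χ (k * l⁻¹) = 1 := by
        rw [map_mul, map_inv, hl']
        simp
      have h2 := mul_mem (hker _ h1) hl
      rw [← map_mul, inv_mul_cancel_right] at h2
      exact h2
  obtain ⟨n, hn⟩ := Int.subgroup_cyclic N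
  have hmem : ∀ m, m ∈ N ↔ n ∣ m := by
    intro m
    rw [hn, AddSubgroup.mem_closure_singleton]
    constructor
    · rintro ⟨a, rfl⟩
      exact ⟨a, by rw [smul_eq_mul, mul_comm]⟩
    · rintro ⟨a, rfl⟩
      exact ⟨a, by rw [smul_eq_mul, mul_comm]⟩
  set p : ℤ := Multiplicative.toAdd (χ t) with hp
  set q : ℤ := Multiplicative.toAdd (χ y) with hq
  have hp0 : p ≠ 0 := by
    intro h
    apply ht
    rw [hp] at h
    exact Multiplicative.toAdd.injective (by simpa using h)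
  have hconj : ∀ k : ℤ, u⁻¹ * f (t ^ k) * u = f (y ^ k) := by
    intro k
    have h1 : u⁻¹ * f (t ^ k) * u = (u⁻¹ * f t * u) ^ k := by
      have := conj_zpow (i := k) (a := u⁻¹) (b := f t)
      rw [inv_inv] at this
      rw [this, map_zpow]
    rw [h1, hu, map_zpow]
  have hiff : ∀ k : ℤ, n ∣ k * p ↔ n ∣ k * q := by
    intro k
    have h1 : f (t ^ k) ∈ E ↔ n ∣ k * p := by
      rw [hN, hmem, map_zpow, toAdd_zpow, smul_eq_mul]
    have h2 : f (y ^ k) ∈ E ↔ n ∣ k * q := by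
      rw [hN, hmem, map_zpow, toAdd_zpow, smul_eq_mul]
    rw [← h1, ← h2, ← hconj]
    constructor
    · intro h
      exact mul_mem (mul_mem (inv_mem huE) h) huE
    · intro h
      have := mul_mem (mul_mem huE h) (inv_mem huE)
      simpa [mul_assoc] using this
  have hn0 : n ≠ 0 := by
    obtain ⟨m, hm, -, hm'⟩ := Subgroup.exists_pow_mem_of_index_ne_zero hE (f t)
    rw [← map_pow, ← zpow_natCast, hN, hmem, map_zpow, toAdd_zpow, smul_eq_mul] at hm'
    rintro rfl
    rw [zero_dvd_iff] at hm'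
    rcases mul_eq_zero.1 hm' with h | h
    · simp only [Nat.cast_eq_zero] at h
      omega
    · exact hp0 h
  -- a combination
  obtain ⟨a, b, hab⟩ : ∃ a b : ℤ, p = n * a + q * b := by
    have hg : ((Int.gcd n q : ℕ) : ℤ) ∣ p := by
      have hgn : ((Int.gcd n q : ℕ) : ℤ) ∣ n := Int.gcd_dvd_left ..
      have hgq : ((Int.gcd n q : ℕ) : ℤ) ∣ q := Int.gcd_dvd_right ..
      obtain ⟨n', hn'⟩ := hgn
      obtain ⟨q', hq'⟩ := hgq
      have h1 : n ∣ n' * q := by
        refine ⟨q', ?_⟩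
        calc n' * q = n' * (((Int.gcd n q : ℕ) : ℤ) * q') := by rw [← hq']
          _ = (((Int.gcd n q : ℕ) : ℤ) * n') * q' := by ring
          _ = n * q' := by rw [← hn']
      have h2 := (hiff n').2 h1
      have hn'0 : n' ≠ 0 := by
        rintro rfl
        rw [mul_zero] at hn'
        exact hn0 hn'
      have h3 : n' * ((Int.gcd n q : ℕ) : ℤ) ∣ n' * p := by
        rw [mul_comm n', ← hn']
        exact h2
      exact (mul_dvd_mul_iff_left hn'0).1 h3
    obtain ⟨c, hc⟩ := hg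
    refine ⟨Int.gcdA n q * c, Int.gcdB n q * c, ?_⟩
    rw [hc, Int.gcd_eq_gcd_ab]
    ring
  have he : f (t * (y ^ b)⁻¹) ∈ E := by
    rw [hN, hmem, map_mul, map_inv, map_zpow, toAdd_mul, toAdd_inv, toAdd_zpow, smul_eq_mul]
    refine ⟨a, ?_⟩
    rw [← hp, ← hq]
    linarith
  have hc : u⁻¹ * f (t ^ b * s * (t ^ b)⁻¹) * u ∈ E := by
    refine mul_mem (mul_mem (inv_mem huE) (hker _ ?_)) huE
    rw [map_mul, map_mul, map_inv, hs]
    simp
  have hfin := mul_mem (mul_mem he hc) (inv_mem he)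
  have hfy : f (y ^ b) = u⁻¹ * f (t ^ b) * u := (hconj b).symm
  have e : f (t * (y ^ b)⁻¹) * (u⁻¹ * f (t ^ b * s * (t ^ b)⁻¹) * u) * (f (t * (y ^ b)⁻¹))⁻¹ =
      f t * u⁻¹ * f s * u * (f t)⁻¹ := by
    simp only [map_mul, map_inv, hfy]
    group
  rw [← e]
  exact hfin

end Helper67.CO
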