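import Pool.Agent.Helper67.CO.Map
import Pool.Agent.Helper67.CO.Clos
import Pool.Agent.Helper85.NS.Pred

/-!
The subgroup generated by a fibre of the first factor and an element of the second factor.
-/

namespace Helper67.CO

open Monoid Function HNNExtension Helper85.NS

variable {A Γ₁ Γ₂ : Type} [Group A] [Group Γ₁] [Group Γ₂] (i₁ : A →* Γ₁) (i₂ : A →* Γ₂)
  (A₀ : Subgroup A) (S : Subgroup Γ₁)

/-- the part of `A₀` which is mapped into `S` -/
def CC : Subgroup A₀ := S.comap (i₁.comp A₀.subtype)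

/-- the map of the intersection to `S` -/
def c1 : CC i₁ A₀ S →* S :=
  (i₁.comp (A₀.subtype.comp (CC i₁ A₀ S).subtype)).codRestrict S (fun x => x.2)

/-- the map from the small to the large pushout on the factors -/
def fm {B₁ B₂ : Subgroup A₀} (φ : B₁ ≃* B₂) (j : HNNExtension A₀ B₁ B₂ φ →* Γ₂) :
    ∀ b, Fam S (Coprod (CC i₁ A₀ S) (Multiplicative ℤ)) b →* Fam Γ₁ Γ₂ b :=
  famMap S.subtype (j.comp (psi φ (CC i₁ A₀ S)))

/-- the two maps of the small pushout -/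
abbrev h0 : ∀ b, CC i₁ A₀ S →* Fam S (Coprod (CC i₁ A₀ S) (Multiplicative ℤ)) b :=
  famHom (c1 i₁ A₀ S) (Coprod.inl : CC i₁ A₀ S →* Coprod (CC i₁ A₀ S) (Multiplicative ℤ))

theorem fm_comp {B₁ B₂ : Subgroup A₀} (φ : B₁ ≃* B₂) (j : HNNExtension A₀ B₁ B₂ φ →* Γ₂)
    (hja : ∀ a : A₀, j (of a) = i₂ a) (b : Bool) (x : CC i₁ A₀ S) :
    fm i₁ A₀ S φ j b (h0 i₁ A₀ S b x) =
      famHom i₁ i₂ b ((A₀.subtype.comp (CC i₁ A₀ S).subtype) x) := by
  cases b with
  | true => rfl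
  | false =>
    change j (psi φ (CC i₁ A₀ S) (Coprod.inl x)) = i₂ x
    rw [← hja]
    simp [psi]

/-- the map of the pushouts -/
def FF {B₁ B₂ : Subgroup A₀} (φ : B₁ ≃* B₂) (j : HNNExtension A₀ B₁ B₂ φ →* Γ₂)
    (hja : ∀ a : A₀, j (of a) = i₂ a) :
    PushoutI (h0 i₁ A₀ S) →* PushoutI (famHom i₁ i₂) :=
  PushoutI.lift (fun b => (PushoutI.of (φ := famHom i₁ i₂) b).comp (fm i₁ A₀ S φ j b))
    ((PushoutI.base (famHom i₁ i₂)).comp (A₀.subtype.comp (CC i₁ A₀ S).subtype)) (by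
      intro b
      ext x
      rw [MonoidHom.comp_apply, MonoidHom.comp_apply, fm_comp i₁ i₂ A₀ S φ j hja,
        PushoutI.of_apply_eq_base]
      rfl)

/-- the map back on the factors -/
def bm : ∀ b, Fam S (Coprod (CC i₁ A₀ S) (Multiplicative ℤ)) b →* Coprod S (Multiplicative ℤ)
  | true => (Coprod.inl : S →* Coprod S (Multiplicative ℤ))
  | false => (Coprod.lift (Coprod.inl.comp (c1 i₁ A₀ S)) Coprod.inr :
      Coprod (CC i₁ A₀ S) (Multiplicative ℤ) →* Coprod S (Multiplicative ℤ))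

theorem bm_comp (b : Bool) : (bm i₁ A₀ S b).comp (h0 i₁ A₀ S b) =
    (Coprod.inl : S →* Coprod S (Multiplicative ℤ)).comp (c1 i₁ A₀ S) := by
  cases b with
  | true => rfl
  | false =>
    change (Coprod.lift (Coprod.inl.comp (c1 i₁ A₀ S)) Coprod.inr :
      Coprod (CC i₁ A₀ S) (Multiplicative ℤ) →* Coprod S (Multiplicative ℤ)).comp Coprod.inl = _
    rw [Coprod.lift_comp_inl]

/-- the map back -/
def back : PushoutI (h0 i₁ A₀ S) →* Coprod S (Multiplicative ℤ) :=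
  PushoutI.lift (bm i₁ A₀ S) (Coprod.inl.comp (c1 i₁ A₀ S)) (bm_comp i₁ A₀ S)

theorem back_of (b : Bool) (x : Fam S (Coprod (CC i₁ A₀ S) (Multiplicative ℤ)) b) :
    back i₁ A₀ S (PushoutI.of b x) = bm i₁ A₀ S b x := by
  rw [back, PushoutI.lift_of]

/-- the map from the free product to the small pushout -/
def ee : Coprod S (Multiplicative ℤ) →* PushoutI (h0 i₁ A₀ S) :=
  Coprod.lift (PushoutI.of (φ := h0 i₁ A₀ S) true)
    ((PushoutI.of (φ := h0 i₁ A₀ S) false).comp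
      (Coprod.inr : Multiplicative ℤ →* Coprod (CC i₁ A₀ S) (Multiplicative ℤ)))

theorem ee_inl (x : S) : ee i₁ A₀ S (Coprod.inl x) = PushoutI.of (φ := h0 i₁ A₀ S) true x :=
  Coprod.lift_apply_inl _ _ x

theorem ee_inr (x : Multiplicative ℤ) : ee i₁ A₀ S (Coprod.inr x) =
    PushoutI.of (φ := h0 i₁ A₀ S) false
      (Coprod.inr x : Coprod (CC i₁ A₀ S) (Multiplicative ℤ)) :=
  Coprod.lift_apply_inr _ _ x

theorem ee_injective : Injective (ee i₁ A₀ S) := by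
  have hbe : (back i₁ A₀ S).comp (ee i₁ A₀ S) = MonoidHom.id _ := by
    apply Coprod.hom_ext
    · ext x
      exact (congrArg (back i₁ A₀ S) (ee_inl i₁ A₀ S x)).trans (back_of i₁ A₀ S true x)
    · apply MonoidHom.ext
      intro x
      exact (congrArg (back i₁ A₀ S) (ee_inr i₁ A₀ S x)).trans
        ((back_of i₁ A₀ S false (Coprod.inr x : Coprod (CC i₁ A₀ S) (Multiplicative ℤ))).trans
          (Coprod.lift_apply_inr _ _ x))
  intro x y hxy
  have h3 := DFunLike.congr_fun hbe x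
  have h4 := DFunLike.congr_fun hbe y
  simp only [MonoidHom.comp_apply, MonoidHom.id_apply] at h3 h4
  rw [← h3, ← h4, hxy]

theorem core {B₁ B₂ : Subgroup A₀} (φ : B₁ ≃* B₂) (hi₁ : Injective i₁) (hi₂ : Injective i₂)
    (j : HNNExtension A₀ B₁ B₂ φ →* Γ₂) (hj : Injective j) (hja : ∀ a : A₀, j (of a) = i₂ a)
    (hjm : ∀ x a, j x = i₂ a → a ∈ A₀) (hSA : ∀ a, i₁ a ∈ S → a ∈ A₀)
    (h1 : ∀ c ∈ CC i₁ A₀ S, c ∈ B₁ → c = 1) (h2 : ∀ c ∈ CC i₁ A₀ S, c ∈ B₂ → c = 1) :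
    Injective (Coprod.lift ((Amalgam.inl i₁ i₂).comp S.subtype)
      (zpowersHom _ (Amalgam.inr i₁ i₂ (j t)))) ∧
    ∀ (g : A₀) (_ : ∀ c ∈ CC i₁ A₀ S, g⁻¹ * c ∉ B₁) (s : Γ₁) (_ : s ∉ i₁.range),
      Amalgam.inr i₁ i₂ (i₂ g * (j t)⁻¹) * Amalgam.inl i₁ i₂ s *
        (Amalgam.inr i₁ i₂ (i₂ g * (j t)⁻¹))⁻¹ ∉
      (Coprod.lift ((Amalgam.inl i₁ i₂).comp S.subtype)
        (zpowersHom _ (Amalgam.inr i₁ i₂ (j t)))).range := by
  set C := CC i₁ A₀ S with hC
  set k : C →* A := A₀.subtype.comp C.subtype with hk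
  have hkinj : Injective k := fun x y h => Subtype.ext (Subtype.ext h)
  have hφ' : ∀ b, Injective (famHom i₁ i₂ b) := by
    intro b
    cases b
    · exact hi₂
    · exact hi₁
  -- elements of the image which lie in the amalgamated group
  have hjr : ∀ x a, j x = i₂ a → x ∈ (of : A₀ →* HNNExtension A₀ B₁ B₂ φ).range := by
    intro x a h
    refine ⟨⟨a, hjm x a h⟩, hj ?_⟩
    rw [hja, h]
  have hr1 : ∀ g : S, (g : Γ₁) ∈ i₁.range → g ∈ (c1 i₁ A₀ S).range := by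
    rintro ⟨g, hg⟩ ⟨a, ha⟩
    have haS : i₁ a ∈ S := by rw [ha]; exact hg
    exact ⟨⟨⟨a, hSA a haS⟩, haS⟩, Subtype.ext ha⟩
  have hr : ∀ b g, fm i₁ A₀ S φ j b g ∈ (famHom i₁ i₂ b).range → g ∈ (h0 i₁ A₀ S b).range := by
    intro b g
    cases b with
    | true => exact hr1 g
    | false =>
      rintro ⟨a, ha⟩
      have ha' : j (psi φ C g) = i₂ a := ha.symm
      obtain ⟨c, hc⟩ := psi_mem_range φ h1 h2 g (hjr _ _ ha')
      exact ⟨c, hc.symm⟩
  set F := FF i₁ i₂ A₀ S φ j hja with hF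
  have hFof : ∀ b x, F (PushoutI.of b x) = PushoutI.of b (fm i₁ A₀ S φ j b x) := by
    intro b x
    rw [hF, FF, PushoutI.lift_of]
    rfl
  have hFbase : ∀ y, F (PushoutI.base _ y) = PushoutI.base _ (k y) := by
    intro y
    rw [hF, FF, PushoutI.lift_base]
    rfl
  have hFinj : Injective F := injective_of_rw (fm i₁ A₀ S φ j) hr F hFof hφ' k hkinj hFbase
  set Θ : Coprod S (Multiplicative ℤ) →* Amalgam i₁ i₂ :=
    Coprod.lift ((Amalgam.inl i₁ i₂).comp S.subtype)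
      (zpowersHom _ (Amalgam.inr i₁ i₂ (j t))) with hΘ
  have hcomm : (toPush i₁ i₂).comp Θ = F.comp (ee i₁ A₀ S) := by
    apply Coprod.hom_ext
    · ext x
      have e1 : Θ (Coprod.inl x) = Amalgam.inl i₁ i₂ (x : Γ₁) := Coprod.lift_apply_inl _ _ x
      exact (congrArg (toPush i₁ i₂) e1).trans ((hFof true x).symm.trans
        (congrArg F (ee_inl i₁ A₀ S x).symm))
    · apply MonoidHom.ext_mint
      have e1 : Θ (Coprod.inr (Multiplicative.ofAdd 1)) = Amalgam.inr i₁ i₂ (j t) := by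
        rw [hΘ, Coprod.lift_apply_inr]
        simp [zpowersHom_apply]
      have h5 : fm i₁ A₀ S φ j false (Coprod.inr (Multiplicative.ofAdd 1) :
          Coprod (CC i₁ A₀ S) (Multiplicative ℤ)) = j t := by
        change j (psi φ C (Coprod.inr (Multiplicative.ofAdd 1))) = j t
        simp [psi, zpowersHom_apply]
      have h6 : PushoutI.of (φ := famHom i₁ i₂) false (j t : Γ₂) =
          PushoutI.of false (fm i₁ A₀ S φ j false (Coprod.inr (Multiplicative.ofAdd 1) :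
            Coprod (CC i₁ A₀ S) (Multiplicative ℤ))) := congrArg _ h5.symm
      exact (congrArg (toPush i₁ i₂) e1).trans (h6.trans ((hFof false _).symm.trans
        (congrArg F (ee_inr i₁ A₀ S _).symm)))
  have hcomm' : ∀ x, toPush i₁ i₂ (Θ x) = F (ee i₁ A₀ S x) := fun x => DFunLike.congr_fun hcomm x
  refine ⟨?_, ?_⟩
  · intro x y hxy
    apply ee_injective i₁ A₀ S
    apply hFinj
    rw [← hcomm', ← hcomm', hxy]
  · rintro g hg s hs ⟨y, hy⟩
    have hy' := congrArg (toPush i₁ i₂) hy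
    rw [hcomm'] at hy'
    refine notMem_image (fm i₁ A₀ S φ j) hr F hFof hφ' (i₂ g * (j t)⁻¹ : Γ₂) ?_ s hs (ee i₁ A₀ S y) ?_
    · rintro m ⟨a, ha⟩
      have ha' : (i₂ g * (j t)⁻¹)⁻¹ * j (psi φ C m) = i₂ a := ha.symm
      have h6 : j (t * of g⁻¹ * psi φ C m) = i₂ a := by
        rw [← ha', map_mul, map_mul, hja]
        simp
      exact t_mul_notMem φ h1 h2 g⁻¹ (fun c hc => hg c hc) m (hjr _ _ h6)
    · have e1 : (PushoutI.of (φ := famHom i₁ i₂) false ((i₂ g * (j t)⁻¹ : Γ₂)⁻¹ : Γ₂) :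
          PushoutI (famHom i₁ i₂)) =
          (PushoutI.of (φ := famHom i₁ i₂) false (i₂ g * (j t)⁻¹ : Γ₂))⁻¹ := map_inv _ _
      refine (hy'.trans ((map_mul _ _ _).trans (congrArg₂ (· * ·) (map_mul _ _ _)
        (map_inv _ _)))).trans ?_
      exact congrArg₂ (· * ·) rfl e1.symm

end Helper67.CO
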