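import Pool.Agent.Helper67.CO.Core

/-!
The criterion: a cyclic overlap in the second factor and a fibration of the first.
-/

namespace Helper67.CO

open Monoid Function HNNExtension Helper85.NS

theorem zpow_eq_one_mult (m : Multiplicative ℤ) (hm : m ≠ 1) (k : ℤ) (h : m ^ k = 1) : k = 0 := by
  have h1 : k * Multiplicative.toAdd m = 0 := by
    have := congrArg Multiplicative.toAdd h
    rwa [toAdd_zpow, smul_eq_mul, toAdd_one] at this
  rcases mul_eq_zero.1 h1 with h2 | h2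
  · exact h2
  · exact absurd (Multiplicative.toAdd.injective (by simpa using h2)) hm

theorem criterion {A Γ₁ Γ₂ : Type} [Group A] [Group Γ₁] [Group Γ₂] (i₁ : A →* Γ₁)
    (i₂ : A →* Γ₂) (hi₁ : Injective i₁) (hi₂ : Injective i₂) (A₀ : Subgroup A) (z z' : A₀)
    (φ : Subgroup.zpowers z' ≃* Subgroup.zpowers z)
    (hφ : (φ ⟨z', Subgroup.mem_zpowers z'⟩ : A₀) = z)
    (j : HNNExtension A₀ (Subgroup.zpowers z') (Subgroup.zpowers z) φ →* Γ₂)
    (hj : Injective j) (hja : ∀ a : A₀, j (of a) = i₂ a) (hjm : ∀ x a, j x = i₂ a → a ∈ A₀)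
    (K : Subgroup Γ₁) (χ : K →* Multiplicative ℤ) (hfp : Group.IsFinitelyPresented χ.ker)
    (hK : ∀ a, i₁ a ∈ K → a ∈ A₀) (n : ℕ) (hz : i₁ ((z : A) ^ n) ∈ K)
    (hz' : i₁ ((z' : A) ^ n) ∈ K) (hχ' : χ ⟨_, hz'⟩ ≠ 1)
    (hχ : ∀ (k : ℤ) (h : i₁ ((z' : A) ^ k) ∈ K), χ ⟨_, h⟩ ≠ χ ⟨_, hz⟩)
    (hs : ∃ s : K, χ s = 1 ∧ (s : Γ₁) ∉ i₁.range) :
    ∃ H : Subgroup (Amalgam i₁ i₂), Nonempty (H ≃* Coprod χ.ker (Multiplicative ℤ)) ∧
      Group.IsFinitelyPresented H ∧ ¬ Separable H := by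
  set S : Subgroup Γ₁ := χ.ker.map K.subtype with hS
  have hSmem : ∀ x, x ∈ S ↔ ∃ h : x ∈ K, χ ⟨x, h⟩ = 1 := by
    intro x
    constructor
    · rintro ⟨y, hy, rfl⟩
      exact ⟨y.2, hy⟩
    · rintro ⟨h, hx⟩
      exact ⟨⟨x, h⟩, hx, rfl⟩
  have hSA : ∀ a, i₁ a ∈ S → a ∈ A₀ := by
    intro a ha
    obtain ⟨h, -⟩ := (hSmem _).1 ha
    exact hK a h
  have hχz : χ ⟨_, hz⟩ ≠ 1 := by
    intro h
    have h0 : i₁ ((z' : A) ^ (0 : ℤ)) ∈ K := by
      rw [zpow_zero, map_one]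
      exact one_mem _
    apply hχ 0 h0
    rw [h, ← map_one χ]
    congr 1
    apply Subtype.ext
    change i₁ ((z' : A) ^ (0 : ℤ)) = 1
    rw [zpow_zero, map_one]
  -- powers of an element with nonzero value in the kernel
  have hpow : ∀ (w : A₀) (hw : i₁ ((w : A) ^ n) ∈ K), χ ⟨_, hw⟩ ≠ 1 →
      ∀ c ∈ CC i₁ A₀ S, c ∈ Subgroup.zpowers w → c = 1 := by
    rintro w hw hne c hc ⟨k, rfl⟩
    have hc' : i₁ ((w : A) ^ k) ∈ S := by
      have : i₁ (((w ^ k : A₀) : A)) ∈ S := hc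
      rwa [Subgroup.coe_zpow] at this
    obtain ⟨h, h1⟩ := (hSmem _).1 hc'
    have h2 : (⟨i₁ ((w : A) ^ n), hw⟩ : K) ^ k = ⟨i₁ ((w : A) ^ k), h⟩ ^ n := by
      apply Subtype.ext
      rw [Subgroup.coe_zpow, Subgroup.coe_pow, ← map_zpow, ← map_pow, ← zpow_natCast,
        ← zpow_natCast, ← zpow_mul, ← zpow_mul, mul_comm]
    have h3 : (χ ⟨_, hw⟩) ^ k = 1 := by
      rw [← map_zpow, h2, map_pow, h1, one_pow]
    have h4 := zpow_eq_one_mult _ hne k h3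
    rw [h4]
    exact zpow_zero w
  have h1 := hpow z' hz' hχ'
  have h2 := hpow z hz hχz
  obtain ⟨hΘ, hnot⟩ := core i₁ i₂ A₀ S φ hi₁ hi₂ j hj hja hjm hSA h1 h2
  set Θ := Coprod.lift ((Amalgam.inl i₁ i₂).comp S.subtype)
    (zpowersHom _ (Amalgam.inr i₁ i₂ (j t))) with hΘdef
  let e : Θ.range ≃* Coprod χ.ker (Multiplicative ℤ) :=
    (MonoidHom.ofInjective hΘ).symm.trans
      (MulEquiv.coprodCongr (χ.ker.equivMapOfInjective K.subtype
        (Subtype.val_injective)).symm (MulEquiv.refl _))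
  refine ⟨Θ.range, ⟨e⟩, ?_, ?_⟩
  · have h3 : Group.IsFinitelyPresented (Coprod χ.ker (Multiplicative ℤ)) := inferInstance
    exact Group.IsFinitelyPresented.equiv (h := h3) e.symm
  · intro hsep
    obtain ⟨s, hs1, hs2⟩ := hs
    set u : Amalgam i₁ i₂ := Amalgam.inr i₁ i₂ (j t) with hu
    have hg : ∀ c ∈ CC i₁ A₀ S, (z ^ n)⁻¹ * c ∉ Subgroup.zpowers z' := by
      rintro c hc ⟨k, hk⟩
      have hk' : (z' : A) ^ k = ((z : A) ^ n)⁻¹ * (c : A) := by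
        have := congrArg (Subtype.val) hk
        simpa using this
      obtain ⟨hcK, hcχ⟩ : ∃ h : i₁ (c : A) ∈ K, χ ⟨i₁ (c : A), h⟩ = 1 := (hSmem _).1 hc
      have hkK : i₁ ((z' : A) ^ (-k)) ∈ K := by
        rw [zpow_neg, hk', map_inv, map_mul, map_inv]
        exact inv_mem (mul_mem (inv_mem hz) hcK)
      apply hχ (-k) hkK
      have h3 : (⟨i₁ ((z' : A) ^ (-k)), hkK⟩ : K) =
          (⟨i₁ (c : A), hcK⟩ : K)⁻¹ * ⟨_, hz⟩ := by
        apply Subtype.ext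
        change i₁ ((z' : A) ^ (-k)) = (i₁ (c : A))⁻¹ * i₁ ((z : A) ^ n)
        rw [zpow_neg, hk', map_inv, map_mul, map_inv]
        group
      rw [h3, map_mul, map_inv, hcχ]
      simp
    have hx := hnot (z ^ n) hg s hs2
    obtain ⟨E, hE, hHE, hxE⟩ := hsep _ hx
    apply hxE
    have huE : u ∈ E := by
      apply hHE
      refine ⟨Coprod.inr (Multiplicative.ofAdd 1), ?_⟩
      rw [hΘdef, Coprod.lift_apply_inr]
      simp [zpowersHom_apply, hu]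
    have hker : ∀ s : K, χ s = 1 → ((Amalgam.inl i₁ i₂).comp K.subtype) s ∈ E := by
      intro s hs
      apply hHE
      refine ⟨Coprod.inl ⟨s, (hSmem _).2 ⟨s.2, hs⟩⟩, ?_⟩
      rw [hΘdef, Coprod.lift_apply_inl]
      rfl
    -- the relation
    have hrel0 : (t : HNNExtension A₀ (Subgroup.zpowers z') (Subgroup.zpowers z) φ)⁻¹ * of z * t =
        of z' := by
      have h3 := t_mul_of (φ := φ) ⟨z', Subgroup.mem_zpowers z'⟩
      rw [hφ] at h3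
      rw [mul_assoc, ← h3, inv_mul_cancel_left]
    have hrel1 : (j t)⁻¹ * i₂ ((z : A) ^ n) * j t = i₂ ((z' : A) ^ n) := by
      have h3 : (t : HNNExtension A₀ (Subgroup.zpowers z') (Subgroup.zpowers z) φ)⁻¹ *
          of (z ^ n) * t = of (z' ^ n) := by
        rw [map_pow, map_pow, ← hrel0]
        have := conj_pow (i := n)
          (a := (t : HNNExtension A₀ (Subgroup.zpowers z') (Subgroup.zpowers z) φ)⁻¹) (b := of z)
        rw [inv_inv] at this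
        exact this.symm
      have h4 := congrArg j h3
      rw [map_mul, map_mul, map_inv, hja, hja] at h4
      simpa using h4
    have hrel : u⁻¹ * ((Amalgam.inl i₁ i₂).comp K.subtype) ⟨_, hz⟩ * u =
        ((Amalgam.inl i₁ i₂).comp K.subtype) ⟨_, hz'⟩ := by
      change u⁻¹ * Amalgam.inl i₁ i₂ (i₁ ((z : A) ^ n)) * u =
        Amalgam.inl i₁ i₂ (i₁ ((z' : A) ^ n))
      rw [Amalgam.inl_eq_inr, Amalgam.inl_eq_inr, ← hrel1, hu, map_mul, map_mul, map_inv]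
    have hfin := closure_mem ((Amalgam.inl i₁ i₂).comp K.subtype) χ u ⟨_, hz⟩ ⟨_, hz'⟩ hrel E
      hE.index_ne_zero hker huE s hs1
    have e1 : Amalgam.inr i₁ i₂ (i₂ ((z ^ n : A₀) : A) * (j t)⁻¹) * Amalgam.inl i₁ i₂ (s : Γ₁) *
        (Amalgam.inr i₁ i₂ (i₂ ((z ^ n : A₀) : A) * (j t)⁻¹))⁻¹ =
        ((Amalgam.inl i₁ i₂).comp K.subtype) ⟨_, hz⟩ * u⁻¹ *
          ((Amalgam.inl i₁ i₂).comp K.subtype) s * u *
          (((Amalgam.inl i₁ i₂).comp K.subtype) ⟨_, hz⟩)⁻¹ := by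
      change _ = Amalgam.inl i₁ i₂ (i₁ ((z : A) ^ n)) * u⁻¹ * Amalgam.inl i₁ i₂ (s : Γ₁) * u *
        (Amalgam.inl i₁ i₂ (i₁ ((z : A) ^ n)))⁻¹
      rw [Amalgam.inl_eq_inr, map_mul, map_inv, ← hu, Subgroup.coe_pow]
      group
    rw [e1]
    exact hfin

end Helper67.CO
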