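import Pool.Agent.Helper67.CO.Sends

/-!
Ping-pong for a rank one cusp and a transverse parabolic.
-/

namespace Helper67.CO

open Helper85.NS Matrix Function HNNExtension

/-- The matrix with rows `(1, τ)` and `(0, 1)`. -/
def tm (τ : ℂ) : SL2 := ⟨!![1, τ; 0, 1], by simp [Matrix.det_fin_two]⟩

/-- The parabolic transformation `w ↦ w + τ`. -/
def T (τ : ℂ) : PSL2 := toPSL (tm τ)

theorem tm_add (a b : ℂ) : tm (a + b) = tm a * tm b := by
  apply Subtype.ext
  rw [Matrix.SpecialLinearGroup.coe_mul]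
  ext i j
  fin_cases i <;> fin_cases j <;> simp [tm, Matrix.mul_apply, Fin.sum_univ_two, add_comm]

theorem T_add (a b : ℂ) : T (a + b) = T a * T b := by
  unfold T
  rw [tm_add, map_mul]

theorem T_zero : T 0 = 1 := by
  unfold T
  rw [← map_one toPSL]
  congr 1
  unfold tm
  apply Subtype.ext
  ext i j
  fin_cases i <;> fin_cases j <;> simp

theorem T_zpow (a : ℂ) (n : ℤ) : T a ^ n = T (n * a) := by
  induction n using Int.induction_on with
  | zero => simp [T_zero]
  | succ n ih =>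
    rw [_root_.zpow_add_one, ih, ← T_add]
    congr 1
    push_cast
    ring
  | pred n ih =>
    have h : (T a)⁻¹ = T (-a) := by
      rw [inv_eq_iff_mul_eq_one, ← T_add, add_neg_cancel, T_zero]
    rw [_root_.zpow_sub_one, ih, h, ← T_add]
    congr 1
    push_cast
    ring

theorem sends_T (a w : ℂ) : Sends (T a) w (w + a) :=
  ⟨tm a, rfl, by simp [tm], by simp [tm]⟩

/-- The cyclic group generated by `z` is a rank one cusp of the group with embedding `ρ` in
`PSL₂(ℂ)`, placed at infinity: `z` acts as `w ↦ w + 1` and every element outside of `⟨z⟩` maps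
the pair of half-planes `|Im w| > R` into the strip `|Im w| ≤ R`. -/
def RankOneCusp {A : Type} [Group A] (ρ : A →* PSL2) (z : A) : Prop :=
  ρ z = T 1 ∧ ∃ R : ℝ, ∀ a, a ∉ Subgroup.zpowers z → ∀ w : ℂ, R < |w.im| →
    ∃ w', Sends (ρ a) w w' ∧ |w'.im| ≤ R

section pp

variable {A : Type} [Group A] (ρ : A →* PSL2) (z : A) (hz : ρ z = T 1) (R : ℝ) (hR : 0 ≤ R)
  (hR' : ∀ a, a ∉ Subgroup.zpowers z → ∀ w : ℂ, R < |w.im| →
    ∃ w', Sends (ρ a) w w' ∧ |w'.im| ≤ R)
  (σ : ℂ) (hσ : 2 * R < σ.im)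

theorem lt_abs_of (e : ℤˣ) (w : ℂ) (h : R < ((e : ℤ) : ℝ) * w.im) : R < |w.im| := by
  rcases Int.units_eq_one_or e with rfl | rfl
  · simp only [Units.val_one, Int.cast_one, one_mul] at h
    exact lt_of_lt_of_le h (le_abs_self _)
  · simp only [Units.val_neg, Units.val_one, Int.cast_neg, Int.cast_one, neg_mul, one_mul] at h
    exact lt_of_lt_of_le h (neg_le_abs _)

theorem neg_le_of_abs (e : ℤˣ) (w : ℂ) (h : |w.im| ≤ R) : -R ≤ ((e : ℤ) : ℝ) * w.im := by
  obtain ⟨h1, h2⟩ := abs_le.1 h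
  rcases Int.units_eq_one_or e with rfl | rfl
  · simpa using h1
  · simpa using h2

include hσ in
theorem step_T (e : ℤˣ) (w : ℂ) (h : -R ≤ ((e : ℤ) : ℝ) * w.im) :
    ∃ w', Sends (T σ ^ (e : ℤ)) w w' ∧ R < ((e : ℤ) : ℝ) * w'.im := by
  refine ⟨w + (e : ℤ) * σ, ?_, ?_⟩
  · rw [T_zpow]
    exact sends_T _ _
  · rcases Int.units_eq_one_or e with rfl | rfl
    · simp only [Units.val_one, Int.cast_one, one_mul, Complex.add_im] at h ⊢
      linarith
    · simp only [Units.val_neg, Units.val_one, Int.cast_neg, Int.cast_one, neg_mul, one_mul,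
        Complex.add_im, Complex.neg_im] at h ⊢
      linarith

include hz in
theorem sends_zpowers (a : A) (ha : a ∈ Subgroup.zpowers z) (w : ℂ) :
    ∃ w', Sends (ρ a) w w' ∧ w'.im = w.im := by
  obtain ⟨m, rfl⟩ := ha
  refine ⟨w + m * 1, ?_, by simp⟩
  rw [map_zpow, hz, T_zpow]
  exact sends_T _ _

include hz hR hR' hσ in
/-- the ping-pong -/
theorem pingpong (L : List (ℤˣ × A))
    (hL : L.IsChain fun a b => a.2 ∈ Subgroup.zpowers z → a.1 = b.1) (e : ℤˣ) (a : A) :
    ∀ (_ : ((e, a) :: L).IsChain fun a b => a.2 ∈ Subgroup.zpowers z → a.1 = b.1),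
    ∃ (P : PSL2) (c : A) (e' : ℤˣ),
      (((e, a) :: L).map fun x => T σ ^ (x.1 : ℤ) * ρ x.2).prod = P * ρ c ∧
      ∀ w : ℂ, -R ≤ ((e' : ℤ) : ℝ) * w.im → ∃ w', Sends P w w' ∧ R < ((e : ℤ) : ℝ) * w'.im := by
  induction L generalizing e a with
  | nil =>
    intro _
    refine ⟨T σ ^ (e : ℤ), a, e, by simp, ?_⟩
    intro w hw
    exact step_T R σ hσ e w hw
  | cons x L ih =>
    obtain ⟨e₁, a₁⟩ := x
    intro hch
    obtain ⟨P, c, e', hP, hw⟩ := ih (List.isChain_cons.1 hL).2 e₁ a₁ hL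
    refine ⟨T σ ^ (e : ℤ) * ρ a * P, c, e', ?_, ?_⟩
    · rw [List.map_cons, List.prod_cons, hP, mul_assoc, mul_assoc, mul_assoc]
    · intro w hww
      obtain ⟨w₁, h1, h1'⟩ := hw w hww
      have h2 : ∃ w₂, Sends (ρ a) w₁ w₂ ∧ -R ≤ ((e : ℤ) : ℝ) * w₂.im := by
        by_cases ha : a ∈ Subgroup.zpowers z
        · obtain ⟨w₂, h3, h4⟩ := sends_zpowers ρ z hz a ha w₁
          refine ⟨w₂, h3, ?_⟩
          have he : e = e₁ := (List.isChain_cons_cons.1 hch).1 ha
          rw [h4, he]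
          linarith
        · obtain ⟨w₂, h3, h4⟩ := hR' a ha w₁ (lt_abs_of R e₁ w₁ h1')
          exact ⟨w₂, h3, neg_le_of_abs R e w₂ h4⟩
      obtain ⟨w₂, h3, h4⟩ := h2
      obtain ⟨w₃, h5, h6⟩ := step_T R σ hσ e w₂ h4
      exact ⟨w₃, by rw [mul_assoc]; exact (h1.comp h3).comp h5, h6⟩

include hz hR hR' hσ in
/-- the group generated by `A` and the transverse parabolic is an HNN extension -/
theorem hnn_injective (hρ : Injective ρ)
    (f : HNNExtension A (Subgroup.zpowers z) (Subgroup.zpowers z) (MulEquiv.refl _) →* PSL2)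
    (hf : ∀ a, f (of a) = ρ a) (hft : f t = T σ) : Injective f := by
  rw [injective_iff_map_eq_one]
  intro x hx
  obtain ⟨d⟩ := NormalWord.TransversalPair.nonempty A (Subgroup.zpowers z) (Subgroup.zpowers z)
  set w := (x • NormalWord.empty : NormalWord d) with hw
  have hwx : w.prod (MulEquiv.refl _) = x := by
    rw [hw, NormalWord.prod_smul, NormalWord.prod_empty, mul_one]
  have hsub : ∀ u : ℤˣ, toSubgroup (Subgroup.zpowers z) (Subgroup.zpowers z) u =
      Subgroup.zpowers z := by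
    intro u
    rcases Int.units_eq_one_or u with rfl | rfl <;> simp
  have hch : w.toList.IsChain fun a b => a.2 ∈ Subgroup.zpowers z → a.1 = b.1 := by
    have := w.chain
    simpa only [hsub] using this
  have hprod : f x = ρ w.head * (w.toList.map fun x => T σ ^ (x.1 : ℤ) * ρ x.2).prod := by
    rw [← hwx, NormalWord.ReducedWord.prod, map_mul, hf, map_list_prod, List.map_map]
    congr 2
    apply List.map_congr_left
    intro y _
    simp [hf, hft]
  rcases hL : w.toList with _ | ⟨⟨e, a⟩, L⟩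
  · rw [hx, hL] at hprod
    have h1 : w.head = 1 := by
      apply hρ
      rw [map_one]
      simpa using hprod.symm
    rw [← hwx, NormalWord.ReducedWord.prod, hL, h1]
    simp
  · exfalso
    rw [hL] at hch hprod
    obtain ⟨P, c, e', hP, hP'⟩ := pingpong ρ z hz R hR hR' σ hσ L (List.isChain_cons.1 hch).2 e a
      hch
    rw [hP, hx] at hprod
    have hPc : P = ρ (w.head⁻¹ * c⁻¹) := by
      rw [map_mul, map_inv, map_inv]
      have h1 : ρ w.head * P * ρ c = 1 := by rw [mul_assoc]; exact hprod.symm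
      have h2 := mul_eq_one_iff_eq_inv.1 h1
      rw [← h2]
      group
    by_cases hc : w.head⁻¹ * c⁻¹ ∈ Subgroup.zpowers z
    · obtain ⟨w', h1, h2⟩ := hP' 0 (by simpa using hR)
      obtain ⟨w'', h3, h4⟩ := sends_zpowers ρ z hz _ hc 0
      rw [hPc] at h1
      have h5 := h1.unique h3
      rw [h5, h4] at h2
      simp at h2
      linarith
    · obtain ⟨w', h1, h2⟩ := hP' (((e' : ℤ) : ℂ) * ((R + 1 : ℝ) : ℂ) * Complex.I) (by
        rcases Int.units_eq_one_or e' with rfl | rfl <;> simp <;> linarith)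
      rw [hPc] at h1
      obtain ⟨w'', h3, h4⟩ := hR' _ hc (((e' : ℤ) : ℂ) * ((R + 1 : ℝ) : ℂ) * Complex.I) (by
        rcases Int.units_eq_one_or e' with rfl | rfl
        · simp only [Units.val_one, Int.cast_one, one_mul]
          rw [Complex.im_ofReal_mul, Complex.I_im, mul_one]
          exact lt_of_lt_of_le (by linarith) (le_abs_self _)
        · simp only [Units.val_neg, Units.val_one, Int.cast_neg, Int.cast_one, neg_mul, one_mul,
            Complex.neg_im]
          rw [Complex.im_ofReal_mul, Complex.I_im, mul_one, abs_neg]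
          exact lt_of_lt_of_le (by linarith) (le_abs_self _))
      have h5 := h1.unique h3
      rw [h5] at h2
      exact absurd (lt_abs_of R e w'' h2) (not_lt.2 h4)

end pp

end Helper67.CO
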