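import Pool.Agent.Helper67.CO.Cusp

/-!
HNN extensions over a rank one cusp.
-/

namespace Helper67.CO

open Helper85.NS Function HNNExtension

/-- The conjugation of a cyclic subgroup. -/
def phiConj {B : Type} [Group B] (z b : B) :
    Subgroup.zpowers (b⁻¹ * z * b) ≃* Subgroup.zpowers z :=
  (MulEquiv.subgroupMap (MulAut.conj b) (Subgroup.zpowers (b⁻¹ * z * b))).trans
    (MulEquiv.subgroupCongr (by
      change (Subgroup.zpowers (b⁻¹ * z * b)).map (MulAut.conj b).toMonoidHom = _
      rw [MonoidHom.map_zpowers]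
      congr 1
      simp [MulAut.conj_apply, mul_assoc]))

theorem phiConj_coe {B : Type} [Group B] (z b : B) (a : Subgroup.zpowers (b⁻¹ * z * b)) :
    ((phiConj z b a : Subgroup.zpowers z) : B) = b * a * b⁻¹ := rfl

/-- change of the stable letter -/
def chg {B : Type} [Group B] (z b : B) :
    HNNExtension B (Subgroup.zpowers (b⁻¹ * z * b)) (Subgroup.zpowers z) (phiConj z b) →*
      HNNExtension B (Subgroup.zpowers z) (Subgroup.zpowers z) (MulEquiv.refl _) :=
  lift of (t * of b) (by
    intro a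
    rw [phiConj_coe]
    have h := t_mul_of (φ := MulEquiv.refl (Subgroup.zpowers z)) (phiConj z b a)
    rw [MulEquiv.refl_apply, phiConj_coe] at h
    calc t * of b * of (a : B) = (t * of (b * a * b⁻¹)) * of b := by
          simp only [map_mul, map_inv, mul_assoc, inv_mul_cancel, mul_one]
      _ = of (b * a * b⁻¹) * (t * of b) := by rw [h, mul_assoc])

/-- and back -/
def chg' {B : Type} [Group B] (z b : B) :
    HNNExtension B (Subgroup.zpowers z) (Subgroup.zpowers z) (MulEquiv.refl _) →*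
      HNNExtension B (Subgroup.zpowers (b⁻¹ * z * b)) (Subgroup.zpowers z) (phiConj z b) :=
  lift of (t * of b⁻¹) (by
    intro a
    have hmem : b⁻¹ * (a : B) * b ∈ Subgroup.zpowers (b⁻¹ * z * b) := by
      obtain ⟨_, m, rfl⟩ := a
      refine ⟨m, ?_⟩
      have := conj_zpow (i := m) (a := b⁻¹) (b := z)
      rw [inv_inv] at this
      exact this
    have h := t_mul_of (φ := phiConj z b) ⟨_, hmem⟩
    rw [phiConj_coe] at h
    have e : b * (b⁻¹ * (a : B) * b) * b⁻¹ = a := by group
    rw [MulEquiv.refl_apply]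
    calc t * of b⁻¹ * of (a : B) = (t * of (b⁻¹ * a * b)) * of b⁻¹ := by
          simp only [map_mul, map_inv, mul_assoc, mul_inv_cancel, mul_one]
      _ = of (b * (b⁻¹ * (a : B) * b) * b⁻¹) * t * of b⁻¹ := by rw [h]
      _ = of (a : B) * t * of b⁻¹ :=
          congrArg (fun x : HNNExtension B (Subgroup.zpowers (b⁻¹ * z * b)) (Subgroup.zpowers z)
            (phiConj z b) => x * t * of b⁻¹) (congrArg of e)
      _ = of (a : B) * (t * of b⁻¹) := mul_assoc _ _ _)

theorem chg_injective {B : Type} [Group B] (z b : B) : Injective (chg z b) := by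
  have h : (chg' z b).comp (chg z b) = MonoidHom.id _ := by
    apply hom_ext
    · ext a
      simp [chg, chg']
    · simp [chg, chg', mul_assoc]
  intro x y hxy
  have h1 := DFunLike.congr_fun h x
  have h2 := DFunLike.congr_fun h y
  simp only [MonoidHom.comp_apply, MonoidHom.id_apply] at h1 h2
  rw [← h1, ← h2, hxy]

theorem exists_int (R c : ℝ) (hc : c ≠ 0) : ∃ N : ℤ, R < (N : ℝ) * c := by
  rcases lt_or_gt_of_ne hc with h | h
  · obtain ⟨n, hn⟩ := exists_nat_gt (R / -c)
    refine ⟨-n, ?_⟩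
    rw [div_lt_iff₀ (by linarith)] at hn
    push_cast
    linarith
  · obtain ⟨n, hn⟩ := exists_nat_gt (R / c)
    refine ⟨n, ?_⟩
    rw [div_lt_iff₀ h] at hn
    push_cast
    exact hn

theorem cusp_hnn {B Γ₂ : Type} [Group B] [Group Γ₂] (i : B →* Γ₂) (hi : Injective i)
    (r : Γ₂ →* PSL2) (hr : Injective r) (z : B) (hz : RankOneCusp (r.comp i) z) (v : Γ₂) (τ : ℂ)
    (hv : r v = T τ) (hτ : τ.im ≠ 0) (b : B) (hb : b ∉ Subgroup.zpowers z) :
    ∃ (φ : Subgroup.zpowers (b⁻¹ * z * b) ≃* Subgroup.zpowers z)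
      (j : HNNExtension B (Subgroup.zpowers (b⁻¹ * z * b)) (Subgroup.zpowers z) φ →* Γ₂),
      (φ ⟨b⁻¹ * z * b, Subgroup.mem_zpowers _⟩ : B) = z ∧ Injective j ∧ ∀ a, j (of a) = i a := by
  obtain ⟨hz1, R, hR'⟩ := hz
  have hR : 0 ≤ R := by
    obtain ⟨w', -, h⟩ := hR' b hb (((|R| + 1 : ℝ) : ℂ) * Complex.I) (by
      rw [Complex.im_ofReal_mul, Complex.I_im, mul_one]
      have h1 : R ≤ |R| := le_abs_self R
      have h2 : |R| + 1 ≤ |(|R| + 1)| := le_abs_self _
      linarith)
    exact (abs_nonneg _).trans h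
  obtain ⟨N, hN⟩ := exists_int (2 * R) τ.im hτ
  have hσ : 2 * R < ((N : ℂ) * τ).im := by
    have : ((N : ℂ) * τ).im = (N : ℝ) * τ.im := by simp
    rw [this]
    exact hN
  have hp : r (v ^ N) = T ((N : ℂ) * τ) := by rw [map_zpow, hv, T_zpow]
  have hρ : Injective (r.comp i) := hr.comp hi
  have hcommT : ∀ a ∈ Subgroup.zpowers z,
      T ((N : ℂ) * τ) * (r.comp i) a = (r.comp i) a * T ((N : ℂ) * τ) := by
    rintro _ ⟨m, rfl⟩
    simp only [map_zpow, hz1, T_zpow]
    rw [← T_add, ← T_add, add_comm]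
  have hcomm : ∀ a ∈ Subgroup.zpowers z, v ^ N * i a = i a * v ^ N := by
    intro a ha
    apply hr
    rw [map_mul, map_mul, hp]
    exact hcommT a ha
  let f : HNNExtension B (Subgroup.zpowers z) (Subgroup.zpowers z) (MulEquiv.refl _) →* PSL2 :=
    lift (r.comp i) (T ((N : ℂ) * τ)) (fun a => hcommT a a.2)
  have hf : Injective f := hnn_injective (r.comp i) z hz1 R hR hR' _ hσ hρ f
    (fun a => lift_of _ _ _ a) (lift_t _ _ _)
  let j : HNNExtension B (Subgroup.zpowers (b⁻¹ * z * b)) (Subgroup.zpowers z) (phiConj z b) →*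
      Γ₂ := lift i (v ^ N * i b) (by
    intro a
    rw [phiConj_coe]
    have h := hcomm _ (phiConj z b a).2
    rw [phiConj_coe] at h
    calc v ^ N * i b * i (a : B) = (v ^ N * i (b * a * b⁻¹)) * i b := by
          simp only [map_mul, map_inv, mul_assoc, inv_mul_cancel, mul_one]
      _ = i (b * a * b⁻¹) * (v ^ N * i b) := by rw [h, mul_assoc])
  have hjf : r.comp j = f.comp (chg z b) := by
    apply hom_ext
    · ext a
      have e1 : j (of a) = i a := lift_of _ _ _ a
      have e2 : chg z b (of a) = of a := lift_of _ _ _ a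
      have e3 : f (of a) = r.comp i a := lift_of _ _ _ a
      simp only [MonoidHom.comp_apply] at e3 ⊢
      rw [e1, e2, e3]
    · have e1 : j t = v ^ N * i b := lift_t _ _ _
      have e2 : chg z b t = t * of b := lift_t _ _ _
      have e3 : f t = T ((N : ℂ) * τ) := lift_t _ _ _
      have e4 : f (of b) = r.comp i b := lift_of _ _ _ b
      simp only [MonoidHom.comp_apply] at e4 ⊢
      rw [e1, e2, map_mul, map_mul, e3, e4, hp]
  refine ⟨phiConj z b, j, ?_, ?_, fun a => lift_of _ _ _ a⟩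
  · rw [phiConj_coe]
    group
  · intro x y hxy
    apply chg_injective z b
    apply hf
    have h1 := DFunLike.congr_fun hjf x
    have h2 := DFunLike.congr_fun hjf y
    simp only [MonoidHom.comp_apply] at h1 h2
    rw [← h1, ← h2, hxy]

end Helper67.CO
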