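import Pool.Agent.Helper67.CO.Crit
import Pool.Agent.Helper67.CO.CuspHnn

/-!
Amalgams along a subgroup which has a cyclic overlap with a conjugate in the second factor.
-/

namespace Helper67.CO

open Monoid Function Helper85.NS

/-- The subgroup `i₂ A` of `Γ₂` has a cyclic overlap at `z, z'` in `A₀ ≤ A`: there is a `u` in
`Γ₂` with `u z' u⁻¹ = z` such that the subgroup generated by `A₀` and `u` is the HNN extension of
`A₀` with stable letter `u` over the cyclic groups generated by `z'` and `z`, and meets the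
image of `A` only in the image of `A₀`. -/
def CyclicOverlap {A Γ₂ : Type} [Group A] [Group Γ₂] (i₂ : A →* Γ₂) (A₀ : Subgroup A)
    (z z' : A₀) : Prop :=
  ∃ (φ : Subgroup.zpowers z' ≃* Subgroup.zpowers z)
    (j : HNNExtension A₀ (Subgroup.zpowers z') (Subgroup.zpowers z) φ →* Γ₂),
    (φ ⟨z', Subgroup.mem_zpowers z'⟩ : A₀) = z ∧ Injective j ∧
    (∀ a : A₀, j (HNNExtension.of a) = i₂ a) ∧ ∀ x a, j x = i₂ a → a ∈ A₀

/-- The character `χ` of the subgroup `K` of `Γ₁` distinguishes the elements `z` and `z'` of `A`: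
`K` meets `A` inside of `A₀` and contains powers `z ^ n` and `z' ^ n` with `χ (z' ^ n)` not
trivial and `χ (z ^ n)` not a value of `χ` at a power of `z'` which lies in `K`; and the kernel
of `χ` is not contained in `A`. -/
def Distinguishes {A Γ₁ : Type} [Group A] [Group Γ₁] (i₁ : A →* Γ₁) (A₀ : Subgroup A) (z z' : A)
    {K : Subgroup Γ₁} (χ : K →* Multiplicative ℤ) : Prop :=
  (∀ a, i₁ a ∈ K → a ∈ A₀) ∧
  (∃ (n : ℕ) (hz : i₁ (z ^ n) ∈ K) (hz' : i₁ (z' ^ n) ∈ K), χ ⟨_, hz'⟩ ≠ 1 ∧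
    ∀ (k : ℤ) (h : i₁ (z' ^ k) ∈ K), χ ⟨_, h⟩ ≠ χ ⟨_, hz⟩) ∧
  ∃ s : K, χ s = 1 ∧ (s : Γ₁) ∉ i₁.range

theorem main_overlap {A Γ₁ Γ₂ : Type} [Group A] [Group Γ₁] [Group Γ₂] (i₁ : A →* Γ₁)
    (i₂ : A →* Γ₂) (hi₁ : Injective i₁) (hi₂ : Injective i₂) (A₀ : Subgroup A) (z z' : A₀)
    (h : CyclicOverlap i₂ A₀ z z') (K : Subgroup Γ₁) (χ : K →* Multiplicative ℤ)
    (hfp : Group.IsFinitelyPresented χ.ker) (hd : Distinguishes i₁ A₀ (z : A) (z' : A) χ) :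
    ∃ H : Subgroup (Amalgam i₁ i₂), Nonempty (H ≃* Coprod χ.ker (Multiplicative ℤ)) ∧
      Group.IsFinitelyPresented H ∧ ¬ Separable H := by
  obtain ⟨φ, j, hφ, hj, hja, hjm⟩ := h
  obtain ⟨hK, ⟨n, hz, hz', hχ', hχ⟩, hs⟩ := hd
  exact criterion i₁ i₂ hi₁ hi₂ A₀ z z' φ hφ j hj hja hjm K χ hfp hK n hz hz' hχ' hχ hs

theorem cusp_overlap {A Γ₂ : Type} [Group A] [Group Γ₂] (i₂ : A →* Γ₂) (hi₂ : Injective i₂)
    (r : Γ₂ →* PSL2) (hr : Injective r) (z : A) (hz : RankOneCusp (r.comp i₂) z) (v : Γ₂) (τ : ℂ)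
    (hv : r v = T τ) (hτ : τ.im ≠ 0) (b : A) (hb : b ∉ Subgroup.zpowers z) :
    CyclicOverlap i₂ ⊤ ⟨z, trivial⟩ ⟨b⁻¹ * z * b, trivial⟩ := by
  set i : (⊤ : Subgroup A) →* Γ₂ := i₂.comp (⊤ : Subgroup A).subtype with hi
  have hiinj : Injective i := hi₂.comp Subtype.val_injective
  set z₀ : (⊤ : Subgroup A) := ⟨z, trivial⟩ with hz₀
  set b₀ : (⊤ : Subgroup A) := ⟨b, trivial⟩ with hb₀
  have hmem : ∀ a : (⊤ : Subgroup A), a ∈ Subgroup.zpowers z₀ ↔ (a : A) ∈ Subgroup.zpowers z := by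
    intro a
    constructor
    · rintro ⟨m, rfl⟩
      exact ⟨m, rfl⟩
    · rintro ⟨m, hm⟩
      exact ⟨m, Subtype.ext hm⟩
  have hz' : RankOneCusp (r.comp i) z₀ := by
    obtain ⟨h1, R, h2⟩ := hz
    exact ⟨h1, R, fun a ha w hw => h2 a (fun h => ha ((hmem a).2 h)) w hw⟩
  obtain ⟨φ, j, hφ, hj, hja⟩ := cusp_hnn i hiinj r hr z₀ hz' v τ hv hτ b₀
    (fun h => hb ((hmem b₀).1 h))
  exact ⟨φ, j, hφ, hj, hja, fun _ _ _ => trivial⟩

/-- Amalgams along a subgroup with a rank one cusp. -/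
theorem main_cusp {A Γ₁ : Type} [Group A] [Group Γ₁] (Γ₂ : Subgroup PSL2) (i₁ : A →* Γ₁)
    (i₂ : A →* Γ₂) (hi₁ : Injective i₁) (hi₂ : Injective i₂) (z b : A) (τ : ℂ)
    (hz : RankOneCusp (Γ₂.subtype.comp i₂) z) (hT : T τ ∈ Γ₂) (hτ : τ.im ≠ 0)
    (hb : b ∉ Subgroup.zpowers z) (K : Subgroup Γ₁) (χ : K →* Multiplicative ℤ)
    (hfp : Group.IsFinitelyPresented χ.ker) (hd : Distinguishes i₁ ⊤ z (b⁻¹ * z * b) χ) :
    ∃ H : Subgroup (Amalgam i₁ i₂), Nonempty (H ≃* Coprod χ.ker (Multiplicative ℤ)) ∧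
      Group.IsFinitelyPresented H ∧ ¬ Separable H :=
  main_overlap i₁ i₂ hi₁ hi₂ ⊤ ⟨z, trivial⟩ ⟨b⁻¹ * z * b, trivial⟩
    (cusp_overlap i₂ hi₂ Γ₂.subtype Subtype.val_injective z hz ⟨T τ, hT⟩ τ rfl hτ b hb) K χ hfp hd

end Helper67.CO
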