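import Pool.Agent.Helper85.NS.MalAm
import Pool.Agent.Helper67.CO.Brit

/-!
Maps of amalgams with different base groups, and a criterion for an element not to be in the
image.
-/

namespace Helper67.CO

open Monoid Function HNNExtension Helper85.NS

section map

variable {ι H H' : Type*} {G G' : ι → Type*} [Group H] [Group H'] [∀ i, Group (G i)]
  [∀ i, Group (G' i)] {φ : ∀ i, H →* G i} {φ' : ∀ i, H' →* G' i} (f : ∀ i, G i →* G' i)
  (hr : ∀ i g, f i g ∈ (φ' i).range → g ∈ (φ i).range)
  (F : PushoutI φ →* PushoutI φ') (hF : ∀ i x, F (PushoutI.of i x) = PushoutI.of i (f i x))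

include hr hF

theorem rw_map {i j : ι} {x : PushoutI φ} (h : RW φ i j x) : RW φ' i j (F x) := by
  induction h with
  | single i g hg =>
    rw [hF]
    exact RW.single i _ (fun h => hg (hr i g h))
  | cons i k j g hg x h hik ih =>
    rw [map_mul, hF]
    exact RW.cons i k j _ (fun h => hg (hr i g h)) _ ih hik

theorem injective_of_rw (hφ' : ∀ i, Injective (φ' i)) [Nonempty ι] (k : H →* H')
    (hk : Injective k) (hb : ∀ y, F (PushoutI.base φ y) = PushoutI.base φ' (k y)) :
    Injective F := by
  rw [injective_iff_map_eq_one]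
  intro x hx
  rcases exists_RW x with ⟨c, rfl⟩ | ⟨i, j, h⟩
  · rw [hb] at hx
    have h1 : k c = 1 := PushoutI.base_injective hφ' (hx.trans (map_one _).symm)
    rw [hk (h1.trans (map_one k).symm), map_one]
  · exfalso
    apply (rw_map f hr F hF h).notMem_base hφ'
    rw [hx]
    exact one_mem _

end map

section two

variable {H H' : Type*} {G G' : Bool → Type*} [Group H] [Group H'] [∀ i, Group (G i)]
  [∀ i, Group (G' i)] {φ : ∀ i, H →* G i} {φ' : ∀ i, H' →* G' i} (f : ∀ i, G i →* G' i)
  (hr : ∀ i g, f i g ∈ (φ' i).range → g ∈ (φ i).range)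
  (F : PushoutI φ →* PushoutI φ') (hF : ∀ i x, F (PushoutI.of i x) = PushoutI.of i (f i x))

include hr hF

/-- left multiplication by an element of the second factor -/
theorem rw_left (g : G' false) (hg : ∀ m, g⁻¹ * f false m ∉ (φ' false).range)
    (x : PushoutI φ) : ∃ j, RW φ' false j (PushoutI.of false g⁻¹ * F x) := by
  rcases exists_RW x with ⟨c, rfl⟩ | ⟨i, j, h⟩
  · refine ⟨false, ?_⟩
    rw [← PushoutI.of_apply_eq_base φ false, hF, ← map_mul]
    exact RW.single _ _ (hg _)
  · cases i with
    | true =>
      refine ⟨j, RW.cons _ true _ _ ?_ _ (rw_map f hr F hF h) (by decide)⟩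
      have := hg 1
      rwa [map_one, mul_one] at this
    | false =>
      cases h with
      | single _ m hm =>
        refine ⟨false, ?_⟩
        rw [hF, ← map_mul]
        exact RW.single _ _ (hg _)
      | cons _ k _ m hm x' h' hk =>
        refine ⟨j, ?_⟩
        rw [map_mul, hF, ← mul_assoc, ← map_mul]
        exact RW.cons _ k _ _ (hg _) _ (rw_map f hr F hF h') hk

theorem notMem_image (hφ' : ∀ i, Injective (φ' i)) (g : G' false)
    (hg : ∀ m, g⁻¹ * f false m ∉ (φ' false).range) (s : G' true) (hs : s ∉ (φ' true).range)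
    (x : PushoutI φ) :
    F x ≠ PushoutI.of false g * PushoutI.of true s * PushoutI.of false g⁻¹ := by
  intro h
  obtain ⟨j, hj⟩ := rw_left f hr F hF g hg x
  have hg1 : g⁻¹ ∉ (φ' false).range := by
    have := hg 1
    rwa [map_one, mul_one] at this
  have h1 : PushoutI.of false g⁻¹ * F x =
      (PushoutI.of true s * PushoutI.of false g⁻¹ : PushoutI φ') := by
    rw [h, map_inv]
    group
  have h2 : RW φ' true false (PushoutI.of true s * PushoutI.of false g⁻¹ : PushoutI φ') :=
    RW.cons _ false _ _ hs _ (RW.single _ _ hg1) (by decide)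
  rw [h1] at hj
  have h3 := hj.inv.mul h2 (by decide)
  apply h3.notMem_base hφ'
  rw [inv_mul_cancel]
  exact one_mem _

end two

end Helper67.CO
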