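import Pool.Agent.Helper85.NS.Defs

/-!
Möbius transformations as relations on the complex plane.
-/

namespace Helper67.CO

open Helper85.NS Matrix

/-- The Möbius transformation `x` sends the complex number `w` to the complex number `w'`. -/
def Sends (x : PSL2) (w w' : ℂ) : Prop :=
  ∃ g : SL2, toPSL g = x ∧ g.1 1 0 * w + g.1 1 1 ≠ 0 ∧
    g.1 0 0 * w + g.1 0 1 = w' * (g.1 1 0 * w + g.1 1 1)

theorem toPSL_eq (g h : SL2) (e : toPSL g = toPSL h) : h = g ∨ h = -g := by
  have h1 : g⁻¹ * h ∈ Subgroup.center (SL2) := by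
    have := QuotientGroup.eq.1 e
    exact this
  rw [Matrix.SpecialLinearGroup.mem_center_iff] at h1
  obtain ⟨r, hr, hs⟩ := h1
  have hr2 : r ^ 2 = 1 := by simpa using hr
  have hh : h.1 = r • g.1 := by
    have : g.1 * (g⁻¹ * h).1 = h.1 := by
      rw [← Matrix.SpecialLinearGroup.coe_mul, mul_inv_cancel_left]
    rw [← this, ← hs]
    simp [Matrix.scalar_apply, ← Matrix.smul_one_eq_diagonal]
  rcases mul_self_eq_one_iff.1 ((sq r).symm.trans hr2) with h3 | h3
  · left
    apply Subtype.ext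
    rw [hh, h3, one_smul]
  · right
    apply Subtype.ext
    rw [hh, h3]
    simp

theorem Sends.unique {x : PSL2} {w w₁ w₂ : ℂ} (h₁ : Sends x w w₁) (h₂ : Sends x w w₂) :
    w₁ = w₂ := by
  obtain ⟨g, hg, hn, he⟩ := h₁
  obtain ⟨h, hh, hn', he'⟩ := h₂
  rcases toPSL_eq g h (hg.trans hh.symm) with rfl | rfl
  · have : w₁ * (h.1 1 0 * w + h.1 1 1) = w₂ * (h.1 1 0 * w + h.1 1 1) := by rw [← he, ← he']
    exact mul_right_cancel₀ hn this
  · have e : w₁ * (g.1 1 0 * w + g.1 1 1) = w₂ * (g.1 1 0 * w + g.1 1 1) := by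
      simp only [Matrix.SpecialLinearGroup.coe_neg, Matrix.neg_apply] at he'
      linear_combination -he' - he
    exact mul_right_cancel₀ hn e

theorem Sends.comp {x y : PSL2} {w w' w'' : ℂ} (h₁ : Sends x w w') (h₂ : Sends y w' w'') :
    Sends (y * x) w w'' := by
  obtain ⟨g, hg, hn, he⟩ := h₁
  obtain ⟨h, hh, hn', he'⟩ := h₂
  refine ⟨h * g, by rw [map_mul, hg, hh], ?_, ?_⟩
  · have e : (h * g).1 1 0 * w + (h * g).1 1 1 =
        (h.1 1 0 * w' + h.1 1 1) * (g.1 1 0 * w + g.1 1 1) := by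
      rw [Matrix.SpecialLinearGroup.coe_mul]
      simp only [Matrix.mul_apply, Fin.sum_univ_two]
      linear_combination h.1 1 0 * he
    rw [e]
    exact mul_ne_zero hn' hn
  · rw [Matrix.SpecialLinearGroup.coe_mul]
    simp only [Matrix.mul_apply, Fin.sum_univ_two]
    linear_combination (h.1 0 0 - w'' * h.1 1 0) * he + (g.1 1 0 * w + g.1 1 1) * he'

theorem Sends.one (w : ℂ) : Sends 1 w w := ⟨1, map_one _, by simp, by simp⟩

theorem Sends.inv {x : PSL2} {w w' : ℂ} (h : Sends x w w') : Sends x⁻¹ w' w := by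
  obtain ⟨g, hg, hn, he⟩ := h
  have hdet : g.1 0 0 * g.1 1 1 - g.1 0 1 * g.1 1 0 = 1 := by
    have := g.2
    rwa [Matrix.det_fin_two] at this
  refine ⟨g⁻¹, by rw [map_inv, hg], ?_, ?_⟩
  · rw [Matrix.SpecialLinearGroup.coe_inv, Matrix.adjugate_fin_two]
    simp only [Matrix.of_apply, Matrix.cons_val', Matrix.cons_val_zero, Matrix.cons_val_one,
      Matrix.cons_val_fin_one, Matrix.empty_val']
    intro h0
    have : (g.1 1 0 * w + g.1 1 1) * (-g.1 1 0 * w' + g.1 0 0) = 1 := by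
      linear_combination (-g.1 1 0) * (-he) + hdet
    rw [h0, mul_zero] at this
    exact zero_ne_one this
  · rw [Matrix.SpecialLinearGroup.coe_inv, Matrix.adjugate_fin_two]
    simp only [Matrix.of_apply, Matrix.cons_val', Matrix.cons_val_zero, Matrix.cons_val_one,
      Matrix.cons_val_fin_one, Matrix.empty_val']
    linear_combination -he

end Helper67.CO
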